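import Pool.Agent.Lib_helper71.DR.Cons

/-!
# The graph discrepancy Ramsey function: explicit two-sided bounds

`F(n, α)` is the least `m` such that some split of the pairs of an `n`-set into two classes has, for
every `X` with `|X| ≥ m`, more than `α (|X| choose 2)` pairs of each class inside `X`.  With
`I(a) = log 2 + a log a + (1 - a) log (1 - a)` the theorem gives, for `0 < α < 1/2`,

`1 / (2 I(α)) < liminf F(n, α) / log n ≤ limsup F(n, α) / log n ≤ 2 / I(α)`,

a lower bound `K / (2 ∑ I(b_j))` for every profile `b_0, ..., b_(K-1)` in `[0, 1]` with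
`∑ j b_j ≥ (1 - α) K² / 2`, and, for `α → 1/2`,

`(4/3 - o(1)) / (1 - 2α)² ≤ liminf ≤ limsup ≤ (4 + o(1)) / (1 - 2α)²`.

Upper bound: random split and the exponential moment of the number of pairs of a class.

Lower bound (`Block`, `Iter`): in a set `V` with an even number of points let every point choose a
class which contains at least half of its pairs; half of the points choose the same class `c`.  By
double counting there is an `s`-set `Y` such that a fraction `P(Bin(s, 1/2) = k) / 8` of the points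
of `V` outside `Y` has at least `k` neighbours of the class `c` in `Y`.  This is repeated inside the
new set, with `k = b_j s`, where `j` is the number of blocks of the class `c` still to be placed,
until there are `K` blocks of one class; the union of these blocks has `K s` points and at least
`s² ∑ j b_j` pairs of this class.
-/

namespace Pool.Agent.Results.MP_9cb5ab_co.ExplicitBounds

open Filter Pool.Agent.DR

theorem result :
    (∀ α : ℝ, 0 < α → α < 1 / 2 →
      (∀ c : ℝ, 2 / I α < c → ∀ᶠ n : ℕ in atTop, (F n α : ℝ) ≤ c * Real.log n) ∧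
      (∃ c : ℝ, 1 / (2 * I α) < c ∧ ∀ᶠ n : ℕ in atTop, c * Real.log n ≤ F n α) ∧
      (∀ (K : ℕ) (b : ℕ → ℝ), 1 ≤ K → (∀ j, 0 ≤ b j) → (∀ j, b j ≤ 1) →
        (1 - α) * K ^ 2 / 2 ≤ ∑ j ∈ Finset.range K, j * b j →
        ∀ c : ℝ, c * (2 * ∑ j ∈ Finset.range K, I (b j)) < K →
          ∀ᶠ n : ℕ in atTop, c * Real.log n ≤ F n α)) ∧
    (∀ δ : ℝ, 0 < δ → ∃ α₀ : ℝ, α₀ < 1 / 2 ∧ ∀ α : ℝ, α₀ < α → α < 1 / 2 →
      ∀ᶠ n : ℕ in atTop, (4 / 3 - δ) / (1 - 2 * α) ^ 2 * Real.log n ≤ F n α ∧
        (F n α : ℝ) ≤ (4 + δ) / (1 - 2 * α) ^ 2 * Real.log n) := by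
  refine ⟨fun α h0 h1 => ⟨fun c hc => upper_log h0 h1 hc, lower_strict h0 h1, ?_⟩, ?_⟩
  · intro K b hK hb0 hb1 hsum c hc
    exact lower (by linarith) hK hb0 hb1 hsum hc
  · intro δ hδ
    obtain ⟨α₁, h1, hlow⟩ := near_lower hδ
    obtain ⟨α₂, -, h2, hup⟩ := near_upper hδ
    refine ⟨max α₁ α₂, max_lt h1 h2, fun α h3 h4 => ?_⟩
    exact (hlow α ((le_max_left _ _).trans_lt h3) h4).and
      (hup α ((le_max_right _ _).trans_lt h3) h4)

end Pool.Agent.Results.MP_9cb5ab_co.ExplicitBounds
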