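import Pool.Agent.Lib_helper16.NH.Asym

/-!
# The graph discrepancy Ramsey function near 1/2: the lower constant 16/9

`F(n, α)` is the least `m` such that some split of the pairs of an `n`-set into two classes has, for
every `X` with `|X| ≥ m`, more than `α (|X| choose 2)` pairs of each class inside `X`.  The theorem
says that, for `α → 1/2`,

`(16/9 - o(1)) / (1 - 2α)² ≤ liminf F(n, α) / log n`.

Let `A(u, v) = ± 1` be the split, `L = log n`, `η = 1 - 2α`, `m ≈ c L / η²`, and suppose that every
`m`-set `X` has `|Q(X)| ≤ η m²`, where `Q(X)` is the sum of `A` over the ordered pairs of `X`.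

* `Quad`: then `∑ r(u) r(v) A(u, v)` is at most `3 η` in absolute value for every law `r` on the
  points without large atoms (greedy choice of an `m`-set from `r`).
* Two sequences `y_1, y_2, ...` and `y'_1, y'_2, ...` are built one pair at a time.  With
  `D(v) = ∑ (A(v, y_i) - A(v, y'_i))` the two points of the next pair are drawn independently from
  one law, proportional to `exp(θ D(v))`.  As the two laws agree there is no drift, whatever the
  split is: the mean of `exp(θ (A(v, y) - A(v, y')))` is at most `exp(θ²)` for every `v`.  So the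
  potentials `Φ(θ)`, the mean of `exp(θ D(v))` over all points `v`, grow at most by the factor
  `exp(θ²)` in mean, for all `θ`, and this keeps the laws free of large atoms up to
  `θ = √((1 - ξ) L / j)` after `j` steps.  By `Quad` the reciprocals of these potentials shrink by
  the factor `exp(-θ² (1 - o(1)))` in mean (`Step`, `Pot`, `Main`).
* By convexity of `log Φ` the mean of `D` for the law of step `j` is at least
  `(2 - o(1)) √(L j)`; the sum over the steps is `Q(Y)/2 - Q(Y')/2 ≥ (4/3 - o(1)) m √(m L)` for a
  suitable choice (`Ind`), while the hypothesis gives `Q(Y) - Q(Y') ≤ 2 η m²`.  So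
  `4/3 √L ≤ η √m (1 + o(1))` (`Asym`).
-/

namespace Pool.Agent.Results.MP_9cb5ab_co.NearHalf

open Filter Pool.Agent.DR

theorem result :
    ∀ δ : ℝ, 0 < δ → ∃ α₀ : ℝ, α₀ < 1 / 2 ∧ ∀ α : ℝ, α₀ < α → α < 1 / 2 →
      ∀ᶠ n : ℕ in atTop, (16 / 9 - δ) / (1 - 2 * α) ^ 2 * Real.log n ≤ F n α :=
  fun _ hδ => Pool.Agent.NH.near_half hδ

end Pool.Agent.Results.MP_9cb5ab_co.NearHalf
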